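import Pool.Agent.V7H49.SYL.B

/-!
# Two minimal generators of a Rees ideal of the same bidegree

`R = k[x, y, z]` and `S = R[t₁, t₂, t₃]` over an arbitrary field `k`, `φ` is a `3 × 2` matrix of
forms, `Δ₁, Δ₂, Δ₃` are its signed maximal minors, and `𝓘` is the kernel of `S → R[T]`,
`t_i ↦ Δ_i T`.  For the matrix of monomials

  `φ = (y z², 0 ; x z², y⁴ ; x y², z⁴)`

with column degrees `3` and `4` all hypotheses of the problem hold: the minors generate an ideal of
codimension two, the entries generate an ideal of codimension two, and the intersection of its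
primary components of codimension two is `(y², z²)`.  Two iterated Sylvester forms starting with
`{f, g}` have the same bidegree `(2, 3)` and are linearly independent modulo `𝔐 𝓘`, where `𝔐` is
the ideal generated by the six variables, i.e. they belong to a minimal generating set of `𝓘`.  So
the answer to Q2 is negative, even for monomial entries and `d₁ = ⌊d/2⌋`, `d₂ = ⌈d/2⌉`.
-/

set_option autoImplicit false

open MvPolynomial

namespace Pool.Agent.Results.MP_2a35bd_al.SharedBidegreeH49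

/-- `R = k[x, y, z]` -/
abbrev R (k : Type*) [Field k] : Type _ := MvPolynomial (Fin 3) k

/-- `S = R[t₁, t₂, t₃]` -/
abbrev S (k : Type*) [Field k] : Type _ := MvPolynomial (Fin 3) (MvPolynomial (Fin 3) k)

section defs

variable {k : Type*} [Field k]

/-- the signed minors `Δ_i` of `φ` (omitting the row `i`), with `(Δ₁, Δ₂, Δ₃) φ = 0` -/
noncomputable def minor (φ : Matrix (Fin 3) (Fin 2) (R k)) (i : Fin 3) : R k :=
  φ (i + 1) 0 * φ (i + 2) 1 - φ (i + 2) 0 * φ (i + 1) 1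

/-- the ideal `I = I₂(φ)` generated by the minors -/
noncomputable def minorIdeal (φ : Matrix (Fin 3) (Fin 2) (R k)) : Ideal (R k) :=
  Ideal.span (Set.range (minor φ))

/-- the ideal `I₁(φ)` generated by the entries -/
noncomputable def entryIdeal (φ : Matrix (Fin 3) (Fin 2) (R k)) : Ideal (R k) :=
  Ideal.span (Set.range fun p : Fin 3 × Fin 2 => φ p.1 p.2)

/-- the homomorphism `S → R[T]`, `t_i ↦ Δ_i T` -/
noncomputable def reesMap (φ : Matrix (Fin 3) (Fin 2) (R k)) :
    S k →ₐ[R k] Polynomial (R k) :=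
  MvPolynomial.aeval fun i => Polynomial.C (minor φ i) * Polynomial.X

/-- the ideal `𝓘`, the kernel of `S → R[T]` -/
noncomputable def reesIdeal (φ : Matrix (Fin 3) (Fin 2) (R k)) : Ideal (S k) :=
  RingHom.ker (reesMap φ)

/-- the ideal `𝔐 = (x, y, z, t₁, t₂, t₃)` of `S` -/
noncomputable def irrelevant (k : Type*) [Field k] : Ideal (S k) :=
  Ideal.span (Set.range (fun i : Fin 3 => (C (X i) : S k)) ∪ Set.range (X : Fin 3 → S k))

/-- `F` is bihomogeneous of bidegree `(i, j)` -/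
def IsBihom (F : S k) (i j : ℕ) : Prop :=
  F.IsHomogeneous j ∧ ∀ β, (F.coeff β).IsHomogeneous i

/-- `a, b` is a regular sequence in `R` -/
structure IsRegularPair (a b : R k) : Prop where
  ne_zero : a ≠ 0
  regular : ∀ r : R k, a ∣ b * r → a ∣ r
  ne_top : Ideal.span {a, b} ≠ ⊤

/-- the intersection of the primary components of codimension two of an ideal `J` of codimension
two: the elements which lie in `J` locally at all prime ideals `P ⊇ J` of height two -/
def codimTwoPart (J : Ideal (R k)) : Set (R k) :=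
  {r | ∀ P : Ideal (R k), P.IsPrime → J ≤ P → P.height = 2 → ∃ s, s ∉ P ∧ s * r ∈ J}

/-- the hypotheses of the problem on `φ`: the entries of the columns are forms of degrees
`2 ≤ d₁ ≤ d₂`, the ideals `I` and `I₁(φ)` have codimension two, and the codimension-two part of
`I₁(φ)` is generated by a regular sequence of two forms -/
structure Admissible (φ : Matrix (Fin 3) (Fin 2) (R k)) (d₁ d₂ : ℕ) : Prop where
  two_le : 2 ≤ d₁
  le : d₁ ≤ d₂
  col_one : ∀ i, (φ i 0).IsHomogeneous d₁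
  col_two : ∀ i, (φ i 1).IsHomogeneous d₂
  codim_minorIdeal : (minorIdeal φ).height = 2
  codim_entryIdeal : (entryIdeal φ).height = 2
  regular : ∃ (a b : R k) (m n : ℕ), a.IsHomogeneous m ∧ b.IsHomogeneous n ∧ IsRegularPair a b ∧
    ∀ r : R k, r ∈ codimTwoPart (entryIdeal φ) ↔ r ∈ Ideal.span {a, b}

/-- `f = ∑ a_{i1} t_i` -/
noncomputable def formF (φ : Matrix (Fin 3) (Fin 2) (R k)) : S k := ∑ i, C (φ i 0) * X i

/-- `g = ∑ a_{i2} t_i` -/
noncomputable def formG (φ : Matrix (Fin 3) (Fin 2) (R k)) : S k := ∑ i, C (φ i 1) * X i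

/-- `G` is a Sylvester form of the bihomogeneous elements `F_1, …, F_s` with respect to the forms
`a_1, …, a_s` of positive degree: `F_i = ∑ c_{ij} a_j` with bihomogeneous `c_{ij}`, and
`G = det (c_{ij})` -/
structure IsSylvester {s : ℕ} (F : Fin s → S k) (a : Fin s → R k) (G : S k) : Prop where
  pos : 0 < s
  bihom : ∀ i, ∃ p q, IsBihom (F i) p q
  form : ∀ j, a j ≠ 0 ∧ ∃ n, 0 < n ∧ (a j).IsHomogeneous n
  det : ∃ c : Matrix (Fin s) (Fin s) (S k), (∀ i j, ∃ p q, IsBihom (c i j) p q) ∧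
    (∀ i, F i = ∑ j, c i j * C (a j)) ∧ G = c.det

/-- `f`, `g` and the iterated Sylvester forms starting with `{f, g}` -/
inductive Available (φ : Matrix (Fin 3) (Fin 2) (R k)) : S k → Prop
  | f : Available φ (formF φ)
  | g : Available φ (formG φ)
  | sylvester {s : ℕ} (F : Fin s → S k) (a : Fin s → R k) (G : S k)
      (hF : ∀ i, Available φ (F i)) (hinj : Function.Injective F) (hG : IsSylvester F a G) :
      Available φ G

/-- `G` is an iterated Sylvester form starting with `{f, g}` -/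
def IsIterated (φ : Matrix (Fin 3) (Fin 2) (R k)) (G : S k) : Prop :=
  ∃ (s : ℕ) (F : Fin s → S k) (a : Fin s → R k), (∀ i, Available φ (F i)) ∧
    Function.Injective F ∧ IsSylvester F a G

/-- the matrix `(y z², 0 ; x z², y⁴ ; x y², z⁴)` -/
noncomputable def phi (k : Type*) [Field k] : Matrix (Fin 3) (Fin 2) (R k) :=
  !![X 1 * X 2 ^ 2, 0; X 0 * X 2 ^ 2, X 1 ^ 4; X 0 * X 1 ^ 2, X 2 ^ 4]

/-- `h = x z² t₃² - y² t₂ (y t₁ + x t₂)` -/
noncomputable def formH (k : Type*) [Field k] : S k :=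
  C (X 0 * X 2 ^ 2) * X 2 ^ 2 - C (X 1 ^ 2) * X 1 * (C (X 1) * X 0 + C (X 0) * X 1)

/-- `G₁ = x² t₃³ + t₂ (y t₁ + x t₂)²` -/
noncomputable def G1 (k : Type*) [Field k] : S k :=
  C (X 0 ^ 2) * X 2 ^ 3 + X 1 * (C (X 1) * X 0 + C (X 0) * X 1) ^ 2

/-- `G₂ = x y t₃³ + z² t₁ t₃² + y t₂² (y t₁ + x t₂)` -/
noncomputable def G2 (k : Type*) [Field k] : S k :=
  C (X 0 * X 1) * X 2 ^ 3 + C (X 2 ^ 2) * X 0 * X 2 ^ 2 +
    X 1 ^ 2 * C (X 1) * (C (X 1) * X 0 + C (X 0) * X 1)

end defs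

section proofs

open Pool.Agent.V7H49.SYL

variable {k : Type*} [Field k]

theorem IsBihom.zero (i j : ℕ) : IsBihom (0 : S k) i j :=
  ⟨MvPolynomial.isHomogeneous_zero _ _ _, fun β => by
    rw [MvPolynomial.coeff_zero]
    exact MvPolynomial.isHomogeneous_zero _ _ _⟩

theorem IsBihom.add {F G : S k} {i j : ℕ} (hF : IsBihom F i j) (hG : IsBihom G i j) :
    IsBihom (F + G) i j :=
  ⟨hF.1.add hG.1, fun β => by
    rw [MvPolynomial.coeff_add]
    exact (hF.2 β).add (hG.2 β)⟩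

theorem IsBihom.neg {F : S k} {i j : ℕ} (hF : IsBihom F i j) : IsBihom (-F) i j :=
  ⟨hF.1.neg, fun β => by
    rw [MvPolynomial.coeff_neg]
    exact (hF.2 β).neg⟩

theorem IsBihom.mul {F G : S k} {i j i' j' : ℕ} (hF : IsBihom F i j) (hG : IsBihom G i' j') :
    IsBihom (F * G) (i + i') (j + j') :=
  ⟨hF.1.mul hG.1, fun β => by
    rw [MvPolynomial.coeff_mul]
    exact MvPolynomial.IsHomogeneous.sum _ _ _ fun p _ => (hF.2 p.1).mul (hG.2 p.2)⟩

theorem IsBihom.C {r : R k} {i : ℕ} (hr : r.IsHomogeneous i) : IsBihom (C r : S k) i 0 :=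
  ⟨MvPolynomial.isHomogeneous_C _ _, fun β => by
    classical
    rw [MvPolynomial.coeff_C]
    split_ifs
    · exact hr
    · exact MvPolynomial.isHomogeneous_zero _ _ _⟩

theorem IsBihom.X (i : Fin 3) : IsBihom (X i : S k) 0 1 :=
  ⟨MvPolynomial.isHomogeneous_X _ _, fun β => by
    classical
    rw [MvPolynomial.coeff_X]
    split_ifs
    · exact MvPolynomial.isHomogeneous_one _ _
    · exact MvPolynomial.isHomogeneous_zero _ _ _⟩

theorem hX (i : Fin 3) : (X i : R k).IsHomogeneous 1 := MvPolynomial.isHomogeneous_X _ _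

theorem hXp (i : Fin 3) (n : ℕ) : (X i ^ n : R k).IsHomogeneous n :=
  MvPolynomial.isHomogeneous_X_pow _ _

theorem ex00 : phi k 0 0 = X 1 * X 2 ^ 2 := rfl
theorem ex01 : phi k 0 1 = 0 := rfl
theorem ex10 : phi k 1 0 = X 0 * X 2 ^ 2 := rfl
theorem ex11 : phi k 1 1 = X 1 ^ 4 := rfl
theorem ex20 : phi k 2 0 = X 0 * X 1 ^ 2 := rfl
theorem ex21 : phi k 2 1 = X 2 ^ 4 := rfl

theorem minor_zero : minor (phi k) 0 = D k 0 := by
  unfold minor
  rw [show (0 : Fin 3) + 1 = 1 from rfl, show (0 : Fin 3) + 2 = 2 from rfl, ex10, ex21, ex20,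
    ex11, D_zero]
  ring

theorem minor_one : minor (phi k) 1 = D k 1 := by
  unfold minor
  rw [show (1 : Fin 3) + 1 = 2 from rfl, show (1 : Fin 3) + 2 = 0 from rfl, ex20, ex01, ex00,
    ex21, D_one]
  ring

theorem minor_two : minor (phi k) 2 = D k 2 := by
  unfold minor
  rw [show (2 : Fin 3) + 1 = 0 from rfl, show (2 : Fin 3) + 2 = 1 from rfl, ex00, ex11, ex10,
    ex01, D_two]
  ring

theorem minor_example (i : Fin 3) : minor (phi k) i = D k i := by
  fin_cases i
  · exact minor_zero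
  · exact minor_one
  · exact minor_two

theorem reesMap_example : reesMap (phi k) = psi k := by
  unfold reesMap psi
  congr 1
  funext i
  rw [minor_example]

theorem mem_rees (F : S k) : F ∈ reesIdeal (phi k) ↔ psi k F = 0 := by
  unfold reesIdeal
  rw [RingHom.mem_ker, reesMap_example]

theorem minorIdeal_le (P : Ideal (R k)) :
    minorIdeal (phi k) ≤ P ↔ ∀ i, D k i ∈ P := by
  unfold minorIdeal
  rw [Ideal.span_le, Set.range_subset_iff]
  exact forall_congr' fun i => by rw [minor_example]; rfl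

theorem entryIdeal_le (P : Ideal (R k)) :
    entryIdeal (phi k) ≤ P ↔ X 1 * X 2 ^ 2 ∈ P ∧ X 0 * X 2 ^ 2 ∈ P ∧ X 1 ^ 4 ∈ P ∧
      X 0 * X 1 ^ 2 ∈ P ∧ X 2 ^ 4 ∈ P := by
  unfold entryIdeal
  rw [Ideal.span_le, Set.range_subset_iff]
  constructor
  · intro h
    exact ⟨h (0, 0), h (1, 0), h (1, 1), h (2, 0), h (2, 1)⟩
  · rintro ⟨h1, h2, h3, h4, h5⟩ ⟨i, j⟩
    fin_cases i <;> fin_cases j
    · exact h1
    · exact P.zero_mem
    · exact h2
    · exact h3
    · exact h4
    · exact h5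

theorem codim_minor : (minorIdeal (phi k)).height = 2 := by
  refine height_eq_two ?_ fun P hP hle => ?_
  · rw [minorIdeal_le]
    intro i
    fin_cases i
    · exact Ideal.mul_mem_left _ _ (Ideal.sub_mem _ (Ideal.pow_mem_of_mem _ X2_mem 6 (by norm_num))
        (Ideal.pow_mem_of_mem _ X1_mem 6 (by norm_num)))
    · exact neg_mem (Ideal.mul_mem_right _ _ X1_mem)
    · exact Ideal.mul_mem_left _ _ (Ideal.pow_mem_of_mem _ X2_mem 2 (by norm_num))
  · rw [minorIdeal_le] at hle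
    have h0 : X 0 * (X 2 ^ 6 - X 1 ^ 6) ∈ P := hle 0
    have h2 : X 1 ^ 5 * X 2 ^ 2 ∈ P := hle 2
    rcases hP.mem_or_mem h2 with h3 | h3
    · have h4 := hP.mem_of_pow_mem _ h3
      rcases hP.mem_or_mem h0 with h5 | h5
      · exact ⟨1, 0, by decide, h4, h5⟩
      · have h6 : (X 2 : R k) ^ 6 ∈ P := by
          have h7 := Ideal.add_mem _ h5 (Ideal.pow_mem_of_mem _ h4 6 (by norm_num))
          rwa [sub_add_cancel] at h7
        exact ⟨1, 2, by decide, h4, hP.mem_of_pow_mem _ h6⟩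
    · have h4 := hP.mem_of_pow_mem _ h3
      rcases hP.mem_or_mem h0 with h5 | h5
      · exact ⟨2, 0, by decide, h4, h5⟩
      · have h6 : (X 1 : R k) ^ 6 ∈ P := by
          have h7 := Ideal.sub_mem _ (Ideal.pow_mem_of_mem _ h4 6 (by norm_num)) h5
          rwa [sub_sub_cancel] at h7
        exact ⟨2, 1, by decide, h4, hP.mem_of_pow_mem _ h6⟩

theorem codim_entry : (entryIdeal (phi k)).height = 2 := by
  refine height_eq_two ?_ fun P hP hle => ?_
  · rw [entryIdeal_le]
    exact ⟨Ideal.mul_mem_right _ _ X1_mem,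
      Ideal.mul_mem_left _ _ (Ideal.pow_mem_of_mem _ X2_mem 2 (by norm_num)),
      Ideal.pow_mem_of_mem _ X1_mem 4 (by norm_num),
      Ideal.mul_mem_left _ _ (Ideal.pow_mem_of_mem _ X1_mem 2 (by norm_num)),
      Ideal.pow_mem_of_mem _ X2_mem 4 (by norm_num)⟩
  · rw [entryIdeal_le] at hle
    exact ⟨1, 2, by decide, hP.mem_of_pow_mem _ hle.2.2.1, hP.mem_of_pow_mem _ hle.2.2.2.2⟩

theorem entry_le_Q0 : entryIdeal (phi k) ≤ Q0 k := by
  rw [entryIdeal_le]
  have h1 : (X 1 : R k) ^ 2 ∈ Q0 k := Ideal.subset_span (by simp)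
  have h2 : (X 2 : R k) ^ 2 ∈ Q0 k := Ideal.subset_span (by simp)
  refine ⟨Ideal.mul_mem_left _ _ h2, Ideal.mul_mem_left _ _ h2, ?_, Ideal.mul_mem_left _ _ h1, ?_⟩
  · have h3 : (X 1 : R k) ^ 4 = X 1 ^ 2 * X 1 ^ 2 := by ring
    rw [h3]
    exact Ideal.mul_mem_left _ _ h1
  · have h3 : (X 2 : R k) ^ 4 = X 2 ^ 2 * X 2 ^ 2 := by ring
    rw [h3]
    exact Ideal.mul_mem_left _ _ h2

theorem regularPair : IsRegularPair (X 1 ^ 2 : R k) (X 2 ^ 2) where
  ne_zero := pow_ne_zero _ (MvPolynomial.X_ne_zero _)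
  regular r h := by
    refine Prime.pow_dvd_of_dvd_mul_left (MvPolynomial.X_prime) 2 (fun hd => ?_) h
    have h1 := (MvPolynomial.X_prime (i := (1 : Fin 3)) (R := k)).dvd_of_dvd_pow hd
    rw [MvPolynomial.X_dvd_X] at h1
    exact absurd h1 (by decide)
  ne_top h := by
    have h1 : Q0 k = ⊤ := h
    have h2 := Q0_le (k := k)
    rw [h1, top_le_iff] at h2
    exact (inferInstance : (P0 k).IsPrime).ne_top h2

theorem codimTwoPart_eq (r : R k) :
    r ∈ codimTwoPart (entryIdeal (phi k)) ↔ r ∈ Ideal.span {(X 1 : R k) ^ 2, X 2 ^ 2} := by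
  refine ⟨fun h => ?_, fun h => ?_⟩
  · obtain ⟨s, hs, hsr⟩ := h (P0 k) inferInstance
      (entry_le_Q0.trans Q0_le) height_P0
    exact Q0_primary hs (entry_le_Q0 hsr)
  · intro P hP hle hht
    have h1 := (entryIdeal_le P).1 hle
    refine ⟨X 0, X0_notMem hht (hP.mem_of_pow_mem _ h1.2.2.1) (hP.mem_of_pow_mem _ h1.2.2.2.2),
      ?_⟩
    obtain ⟨a, b, rfl⟩ := Ideal.mem_span_pair.1 h
    have h2 := (entryIdeal_le (entryIdeal (phi k))).1 le_rfl
    have h3 : (X 0 : R k) * (a * X 1 ^ 2 + b * X 2 ^ 2) =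
        a * (X 0 * X 1 ^ 2) + b * (X 0 * X 2 ^ 2) := by ring
    rw [h3]
    exact Ideal.add_mem _ (Ideal.mul_mem_left _ _ h2.2.2.2.1) (Ideal.mul_mem_left _ _ h2.2.1)

theorem admissible : Admissible (phi k) 3 4 where
  two_le := by norm_num
  le := by norm_num
  col_one i := by
    fin_cases i
    · exact (hX 1).mul (hXp 2 2)
    · exact (hX 0).mul (hXp 2 2)
    · exact (hX 0).mul (hXp 1 2)
  col_two i := by
    fin_cases i
    · exact MvPolynomial.isHomogeneous_zero _ _ _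
    · exact hXp 1 4
    · exact hXp 2 4
  codim_minorIdeal := codim_minor
  codim_entryIdeal := codim_entry
  regular := ⟨X 1 ^ 2, X 2 ^ 2, 2, 2, hXp 1 2, hXp 2 2, regularPair, codimTwoPart_eq⟩

theorem formF_example : formF (phi k) =
    C (X 1 * X 2 ^ 2) * X 0 + C (X 0 * X 2 ^ 2) * X 1 + C (X 0 * X 1 ^ 2) * X 2 := by
  unfold formF
  rw [Fin.sum_univ_three, ex00, ex10, ex20]

theorem formG_example : formG (phi k) = C (X 1 ^ 4) * X 1 + C (X 2 ^ 4) * X 2 := by
  unfold formG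
  rw [Fin.sum_univ_three, ex01, ex11, ex21, map_zero, zero_mul, zero_add]

theorem bX (i : Fin 3) : IsBihom (X i : S k) 0 1 := IsBihom.X i

theorem bXp (i : Fin 3) (n : ℕ) : IsBihom (X i ^ n : S k) 0 n := by
  induction n with
  | zero =>
    rw [pow_zero]
    have h := IsBihom.C (k := k) (r := 1) (MvPolynomial.isHomogeneous_one _ _)
    rwa [map_one] at h
  | succ n ih =>
    rw [pow_succ]
    exact ih.mul (bX i)

theorem bC (i : Fin 3) : IsBihom (C (X i) : S k) 1 0 := IsBihom.C (hX i)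

theorem bF : IsBihom (formF (phi k)) 3 1 := by
  rw [formF_example]
  exact (((IsBihom.C ((hX 1).mul (hXp 2 2))).mul (bX 0)).add
    ((IsBihom.C ((hX 0).mul (hXp 2 2))).mul (bX 1))).add
    ((IsBihom.C ((hX 0).mul (hXp 1 2))).mul (bX 2))

theorem bG : IsBihom (formG (phi k)) 4 1 := by
  rw [formG_example]
  exact ((IsBihom.C (hXp 1 4)).mul (bX 1)).add ((IsBihom.C (hXp 2 4)).mul (bX 2))

theorem bL : IsBihom (C (X 1) * X 0 + C (X 0) * X 1 : S k) 1 1 :=
  ((bC 1).mul (bX 0)).add ((bC 0).mul (bX 1))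

theorem bh : IsBihom (formH k) 3 2 := by
  unfold formH
  rw [sub_eq_add_neg]
  exact ((IsBihom.C ((hX 0).mul (hXp 2 2))).mul (bXp 2 2)).add
    ((((IsBihom.C (hXp 1 2)).mul (bX 1)).mul bL).neg)

theorem bG1 : IsBihom (G1 k) 2 3 := by
  unfold G1
  rw [pow_two (C (X 1) * X 0 + C (X 0) * X 1 : S k)]
  exact ((IsBihom.C (hXp 0 2)).mul (bXp 2 3)).add ((bX 1).mul (bL.mul bL))

theorem bG2 : IsBihom (G2 k) 2 3 := by
  unfold G2
  exact (((IsBihom.C ((hX 0).mul (hX 1))).mul (bXp 2 3)).add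
    (((IsBihom.C (hXp 2 2)).mul (bX 0)).mul (bXp 2 2))).add (((bXp 1 2).mul (bC 1)).mul bL)

/-- an evaluation of the elements of `S` -/
noncomputable def ev (k : Type*) [Field k] : S k →+* k :=
  MvPolynomial.eval₂Hom (MvPolynomial.eval ![(0 : k), 1, 1]) ![(1 : k), 0, 0]

theorem ev_F : ev k (formF (phi k)) = 1 := by
  rw [formF_example]
  simp [ev]

theorem ev_G : ev k (formG (phi k)) = 0 := by
  rw [formG_example]
  simp [ev]

theorem ev_h : ev k (formH k) = 0 := by
  unfold formH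
  simp [ev]

theorem injective_pair {A B : S k} (h : A ≠ B) : Function.Injective ![A, B] := by
  intro i j hij
  fin_cases i <;> fin_cases j
  · rfl
  · exact absurd hij h
  · exact absurd hij.symm h
  · rfl

theorem ne_of_ev {A B : S k} (h : ev k A ≠ ev k B) : A ≠ B := fun e => h (by rw [e])

/-- Sylvester forms of two elements -/
theorem isSylvester_two {A B c00 c01 c10 c11 : S k} {a b : R k} {m n : ℕ} (hm : 0 < m)
    (hn : 0 < n) (ha : a ≠ 0) (hb : b ≠ 0) (ha' : a.IsHomogeneous m) (hb' : b.IsHomogeneous n)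
    (hA : ∃ p q, IsBihom A p q) (hB : ∃ p q, IsBihom B p q)
    (h00 : ∃ p q, IsBihom c00 p q) (h01 : ∃ p q, IsBihom c01 p q)
    (h10 : ∃ p q, IsBihom c10 p q) (h11 : ∃ p q, IsBihom c11 p q)
    (eA : A = c00 * C a + c01 * C b) (eB : B = c10 * C a + c11 * C b) :
    IsSylvester ![A, B] ![a, b] (c00 * c11 - c01 * c10) where
  pos := by norm_num
  bihom i := by
    fin_cases i
    · exact hA
    · exact hB
  form i := by
    fin_cases i
    · exact ⟨ha, m, hm, ha'⟩
    · exact ⟨hb, n, hn, hb'⟩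
  det := by
    refine ⟨!![c00, c01; c10, c11], fun i j => ?_, fun i => ?_, ?_⟩
    · fin_cases i <;> fin_cases j
      · exact h00
      · exact h01
      · exact h10
      · exact h11
    · rw [Fin.sum_univ_two]
      fin_cases i
      · exact eA
      · exact eB
    · rw [Matrix.det_fin_two_of]

theorem X_ne (i : Fin 3) : (X i : R k) ≠ 0 := MvPolynomial.X_ne_zero i

theorem syl_h : IsSylvester ![formF (phi k), formG (phi k)] ![X 1 ^ 2, X 2 ^ 2]
    (formH k) := by
  have h := isSylvester_two (k := k) (A := formF (phi k)) (B := formG (phi k))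
    (c00 := C (X 0) * X 2) (c01 := C (X 1) * X 0 + C (X 0) * X 1) (c10 := C (X 1 ^ 2) * X 1)
    (c11 := C (X 2 ^ 2) * X 2) (a := X 1 ^ 2) (b := X 2 ^ 2) (m := 2) (n := 2) (by norm_num)
    (by norm_num) (pow_ne_zero _ (X_ne 1)) (pow_ne_zero _ (X_ne 2)) (hXp 1 2) (hXp 2 2)
    ⟨_, _, bF⟩ ⟨_, _, bG⟩ ⟨_, _, (bC 0).mul (bX 2)⟩ ⟨_, _, bL⟩
    ⟨_, _, (IsBihom.C (hXp 1 2)).mul (bX 1)⟩ ⟨_, _, (IsBihom.C (hXp 2 2)).mul (bX 2)⟩
    (by rw [formF_example]; simp only [map_mul, map_pow]; ring)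
    (by rw [formG_example]; simp only [map_pow]; ring)
  have e : (C (X 0) * X 2 * (C (X 2 ^ 2) * X 2) -
      (C (X 1) * X 0 + C (X 0) * X 1) * (C (X 1 ^ 2) * X 1) : S k) = formH k := by
    unfold formH
    simp only [map_mul, map_pow]
    ring
  rwa [e] at h

theorem syl_1 : IsSylvester ![formF (phi k), formH k] ![X 1 ^ 2, X 2 ^ 2] (G1 k) := by
  have h := isSylvester_two (k := k) (A := formF (phi k)) (B := formH k)
    (c00 := C (X 0) * X 2) (c01 := C (X 1) * X 0 + C (X 0) * X 1)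
    (c10 := -(X 1 * (C (X 1) * X 0 + C (X 0) * X 1)))
    (c11 := C (X 0) * X 2 ^ 2) (a := X 1 ^ 2) (b := X 2 ^ 2) (m := 2) (n := 2) (by norm_num)
    (by norm_num) (pow_ne_zero _ (X_ne 1)) (pow_ne_zero _ (X_ne 2)) (hXp 1 2) (hXp 2 2)
    ⟨_, _, bF⟩ ⟨_, _, bh⟩ ⟨_, _, (bC 0).mul (bX 2)⟩ ⟨_, _, bL⟩
    ⟨_, _, ((bX 1).mul bL).neg⟩ ⟨_, _, (bC 0).mul (bXp 2 2)⟩
    (by rw [formF_example]; simp only [map_mul, map_pow]; ring)
    (by unfold formH; simp only [map_mul, map_pow]; ring)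
  have e : (C (X 0) * X 2 * (C (X 0) * X 2 ^ 2) -
      (C (X 1) * X 0 + C (X 0) * X 1) * (-(X 1 * (C (X 1) * X 0 + C (X 0) * X 1))) : S k) =
      G1 k := by
    unfold G1
    simp only [map_pow]
    ring
  rwa [e] at h

theorem syl_2 : IsSylvester ![formF (phi k), formH k] ![X 1, X 0 * X 2 ^ 2] (G2 k) := by
  have h := isSylvester_two (k := k) (A := formF (phi k)) (B := formH k)
    (c00 := C (X 2 ^ 2) * X 0 + C (X 0 * X 1) * X 2) (c01 := X 1)
    (c10 := -(X 1 * C (X 1) * (C (X 1) * X 0 + C (X 0) * X 1)))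
    (c11 := X 2 ^ 2) (a := X 1) (b := X 0 * X 2 ^ 2) (m := 1) (n := 1 + 2) (by norm_num)
    (by norm_num) (X_ne 1) (mul_ne_zero (X_ne 0) (pow_ne_zero _ (X_ne 2))) (hX 1)
    ((hX 0).mul (hXp 2 2)) ⟨_, _, bF⟩ ⟨_, _, bh⟩
    ⟨_, _, ((IsBihom.C (hXp 2 2)).mul (bX 0)).add ((IsBihom.C ((hX 0).mul (hX 1))).mul (bX 2))⟩
    ⟨_, _, bX 1⟩ ⟨_, _, (((bX 1).mul (bC 1)).mul bL).neg⟩ ⟨_, _, bXp 2 2⟩
    (by rw [formF_example]; simp only [map_mul, map_pow]; ring)
    (by unfold formH; simp only [map_mul, map_pow]; ring)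
  have e : ((C (X 2 ^ 2) * X 0 + C (X 0 * X 1) * X 2) * X 2 ^ 2 -
      X 1 * (-(X 1 * C (X 1) * (C (X 1) * X 0 + C (X 0) * X 1))) : S k) = G2 k := by
    unfold G2
    simp only [map_mul, map_pow]
    ring
  rwa [e] at h

theorem available_h : Available (phi k) (formH k) := by
  refine Available.sylvester _ _ _ (fun i => ?_)
    (injective_pair (ne_of_ev (by rw [ev_F, ev_G]; exact one_ne_zero))) syl_h
  fin_cases i
  · exact Available.f
  · exact Available.g

theorem available_fh (i : Fin 2) : Available (phi k) (![formF (phi k), formH k] i) := by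
  fin_cases i
  · exact Available.f
  · exact available_h

theorem inj_fh : Function.Injective ![formF (phi k), formH k] :=
  injective_pair (ne_of_ev (by rw [ev_F, ev_h]; exact one_ne_zero))

theorem iter_1 : IsIterated (phi k) (G1 k) :=
  ⟨2, _, _, available_fh, inj_fh, syl_1⟩

theorem iter_2 : IsIterated (phi k) (G2 k) :=
  ⟨2, _, _, available_fh, inj_fh, syl_2⟩

theorem psi_C (r : R k) : psi k (C r) = Polynomial.C r := by
  unfold psi
  rw [MvPolynomial.aeval_C, Polynomial.algebraMap_eq]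

theorem psi_X (i : Fin 3) : psi k (X i) = Polynomial.C (D k i) * Polynomial.X := by
  unfold psi
  rw [MvPolynomial.aeval_X]

theorem mem_1 : G1 k ∈ reesIdeal (phi k) := by
  rw [mem_rees]
  unfold G1
  simp only [map_add, map_mul, map_pow, psi_X, psi_C]
  rw [D_zero, D_one, D_two]
  simp only [map_mul, map_pow, map_neg, map_sub]
  ring

theorem mem_2 : G2 k ∈ reesIdeal (phi k) := by
  rw [mem_rees]
  unfold G2
  simp only [map_add, map_mul, map_pow, psi_X, psi_C]
  rw [D_zero, D_one, D_two]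
  simp only [map_mul, map_pow, map_neg, map_sub]
  ring

/-- the coefficient of `x² t₃³` -/
noncomputable def L1 (F : S k) : k := coeff (mono 2 0 0) (F.coeff (mono 0 0 3))

/-- the coefficient of `x y t₃³` -/
noncomputable def L2 (F : S k) : k := coeff (mono 1 1 0) (F.coeff (mono 0 0 3))

theorem L1_add (F G : S k) : L1 (F + G) = L1 F + L1 G := by
  unfold L1
  rw [MvPolynomial.coeff_add, MvPolynomial.coeff_add]

theorem L2_add (F G : S k) : L2 (F + G) = L2 F + L2 G := by
  unfold L2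
  rw [MvPolynomial.coeff_add, MvPolynomial.coeff_add]

theorem L1_C (c : k) (F : S k) : L1 (C (C c) * F) = c * L1 F := by
  unfold L1
  rw [MvPolynomial.coeff_C_mul, MvPolynomial.coeff_C_mul]

theorem L2_C (c : k) (F : S k) : L2 (C (C c) * F) = c * L2 F := by
  unfold L2
  rw [MvPolynomial.coeff_C_mul, MvPolynomial.coeff_C_mul]

theorem coeff_X_mono {A : Type*} [CommSemiring A] (i : Fin 3) (a b c : ℕ)
    (F : MvPolynomial (Fin 3) A) :
    coeff (mono a b c) (X i * F) =
      if (mono a b c) i = 0 then 0 else coeff (mono a b c - Finsupp.single i 1) F := by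
  rw [MvPolynomial.coeff_X_mul']
  by_cases h : (mono a b c) i = 0
  · rw [if_pos h, if_neg]
    rwa [Finsupp.notMem_support_iff]
  · rw [if_neg h, if_pos]
    rwa [Finsupp.mem_support_iff]

theorem mono_sub_zero (a b c : ℕ) : mono a b c - Finsupp.single 0 1 = mono (a - 1) b c := by
  ext i
  fin_cases i
  · simp [Finsupp.tsub_apply, mono_zero]
  · simp [Finsupp.tsub_apply, mono_one]
  · simp [Finsupp.tsub_apply, mono_two]

theorem mono_sub_one (a b c : ℕ) : mono a b c - Finsupp.single 1 1 = mono a (b - 1) c := by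
  ext i
  fin_cases i
  · simp [Finsupp.tsub_apply, mono_zero]
  · simp [Finsupp.tsub_apply, mono_one]
  · simp [Finsupp.tsub_apply, mono_two]

theorem mono_sub_two (a b c : ℕ) : mono a b c - Finsupp.single 2 1 = mono a b (c - 1) := by
  ext i
  fin_cases i
  · simp [Finsupp.tsub_apply, mono_zero]
  · simp [Finsupp.tsub_apply, mono_one]
  · simp [Finsupp.tsub_apply, mono_two]

/-- the functionals vanish on `x 𝓘, y 𝓘, z 𝓘` -/
theorem kill_C {F : S k} (hF : psi k F = 0) (i : Fin 3) :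
    L1 (C (X i) * F) = 0 ∧ L2 (C (X i) * F) = 0 := by
  obtain ⟨h1, h2, -, -⟩ := vanish hF
  unfold L1 L2
  rw [MvPolynomial.coeff_C_mul, coeff_X_mono, coeff_X_mono]
  fin_cases i
  · show (if (mono 2 0 0) 0 = 0 then 0 else coeff (mono 2 0 0 - Finsupp.single 0 1) _) = 0 ∧
      (if (mono 1 1 0) 0 = 0 then 0 else coeff (mono 1 1 0 - Finsupp.single 0 1) _) = 0
    rw [mono_sub_zero, mono_sub_zero, mono_zero, mono_zero]
    exact ⟨h1, h2⟩
  · show (if (mono 2 0 0) 1 = 0 then 0 else coeff (mono 2 0 0 - Finsupp.single 1 1) _) = 0 ∧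
      (if (mono 1 1 0) 1 = 0 then 0 else coeff (mono 1 1 0 - Finsupp.single 1 1) _) = 0
    rw [mono_sub_one, mono_sub_one, mono_one, mono_one]
    exact ⟨rfl, h1⟩
  · show (if (mono 2 0 0) 2 = 0 then 0 else coeff (mono 2 0 0 - Finsupp.single 2 1) _) = 0 ∧
      (if (mono 1 1 0) 2 = 0 then 0 else coeff (mono 1 1 0 - Finsupp.single 2 1) _) = 0
    rw [mono_two, mono_two]
    exact ⟨rfl, rfl⟩

/-- the functionals vanish on `t_i 𝓘` -/
theorem kill_X {F : S k} (hF : psi k F = 0) (i : Fin 3) :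
    L1 (X i * F) = 0 ∧ L2 (X i * F) = 0 := by
  obtain ⟨-, -, h3, h4⟩ := vanish hF
  unfold L1 L2
  rw [coeff_X_mono]
  fin_cases i
  · show coeff (mono 2 0 0) (if (mono 0 0 3) 0 = 0 then 0 else
        coeff (mono 0 0 3 - Finsupp.single 0 1) F) = 0 ∧
      coeff (mono 1 1 0) (if (mono 0 0 3) 0 = 0 then 0 else
        coeff (mono 0 0 3 - Finsupp.single 0 1) F) = 0
    rw [mono_zero, if_pos rfl]
    exact ⟨MvPolynomial.coeff_zero _, MvPolynomial.coeff_zero _⟩
  · show coeff (mono 2 0 0) (if (mono 0 0 3) 1 = 0 then 0 else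
        coeff (mono 0 0 3 - Finsupp.single 1 1) F) = 0 ∧
      coeff (mono 1 1 0) (if (mono 0 0 3) 1 = 0 then 0 else
        coeff (mono 0 0 3 - Finsupp.single 1 1) F) = 0
    rw [mono_one, if_pos rfl]
    exact ⟨MvPolynomial.coeff_zero _, MvPolynomial.coeff_zero _⟩
  · show coeff (mono 2 0 0) (if (mono 0 0 3) 2 = 0 then 0 else
        coeff (mono 0 0 3 - Finsupp.single 2 1) F) = 0 ∧
      coeff (mono 1 1 0) (if (mono 0 0 3) 2 = 0 then 0 else
        coeff (mono 0 0 3 - Finsupp.single 2 1) F) = 0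
    rw [mono_two, if_neg (by norm_num), mono_sub_two]
    exact ⟨h3, h4⟩

theorem L_zero : L1 (0 : S k) = 0 ∧ L2 (0 : S k) = 0 := by
  unfold L1 L2
  rw [MvPolynomial.coeff_zero, MvPolynomial.coeff_zero, MvPolynomial.coeff_zero]
  exact ⟨rfl, rfl⟩

/-- the value of the functionals on `s F`, `F ∈ 𝓘`, depends on the constant term of `s` only -/
theorem L_mul (s : S k) : ∀ F : S k, psi k F = 0 →
    L1 (s * F) = constantCoeff (constantCoeff s) * L1 F ∧
      L2 (s * F) = constantCoeff (constantCoeff s) * L2 F := by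
  induction s using MvPolynomial.induction_on with
  | C r =>
    induction r using MvPolynomial.induction_on with
    | C c =>
      intro F _
      rw [L1_C, L2_C, MvPolynomial.constantCoeff_C, MvPolynomial.constantCoeff_C]
      exact ⟨rfl, rfl⟩
    | add p q hp hq =>
      intro F hF
      rw [map_add, add_mul, L1_add, L2_add, (hp F hF).1, (hp F hF).2, (hq F hF).1, (hq F hF).2,
        map_add, map_add]
      constructor <;> ring
    | mul_X p n hp =>
      intro F hF
      have e : (C (p * X n) : S k) * F = C (X n) * (C p * F) := by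
        rw [map_mul]
        ring
      have hF' : psi k (C p * F) = 0 := by rw [map_mul, hF, mul_zero]
      rw [e, (kill_C hF' n).1, (kill_C hF' n).2, MvPolynomial.constantCoeff_C, map_mul,
        MvPolynomial.constantCoeff_X, mul_zero, zero_mul, zero_mul]
      exact ⟨rfl, rfl⟩
  | add p q hp hq =>
    intro F hF
    rw [add_mul, L1_add, L2_add, (hp F hF).1, (hp F hF).2, (hq F hF).1, (hq F hF).2,
      map_add, map_add]
    constructor <;> ring
  | mul_X p n hp =>
    intro F hF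
    have e : p * X n * F = X n * (p * F) := by ring
    have hF' : psi k (p * F) = 0 := by rw [map_mul, hF, mul_zero]
    rw [e, (kill_X hF' n).1, (kill_X hF' n).2, map_mul, MvPolynomial.constantCoeff_X, mul_zero,
      map_zero, zero_mul, zero_mul]
    exact ⟨rfl, rfl⟩

theorem constant_irrelevant {s : S k} (hs : s ∈ irrelevant k) :
    constantCoeff (constantCoeff s) = 0 := by
  have h1 : irrelevant k ≤
      RingHom.ker ((constantCoeff : R k →+* k).comp (constantCoeff : S k →+* R k)) := by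
    unfold irrelevant
    rw [Ideal.span_le]
    rintro F (⟨i, rfl⟩ | ⟨i, rfl⟩)
    · show constantCoeff (constantCoeff (C (X i) : S k)) = 0
      rw [MvPolynomial.constantCoeff_C, MvPolynomial.constantCoeff_X]
    · show constantCoeff (constantCoeff (X i : S k)) = 0
      rw [MvPolynomial.constantCoeff_X, map_zero]
  exact h1 hs

/-- the functionals vanish on `𝔐 𝓘` -/
theorem kill {W : S k} (hW : W ∈ irrelevant k * reesIdeal (phi k)) :
    L1 W = 0 ∧ L2 W = 0 := by
  induction hW using Submodule.mul_induction_on' with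
  | mem_mul_mem m hm n hn =>
    rw [mem_rees] at hn
    have h := L_mul m n hn
    rw [constant_irrelevant hm, zero_mul, zero_mul] at h
    exact h
  | add x _ y _ hx hy =>
    rw [L1_add, L2_add, hx.1, hx.2, hy.1, hy.2, add_zero]
    exact ⟨rfl, rfl⟩

theorem coeff_X_left (i : Fin 3) (F : S k) (β : Fin 3 →₀ ℕ) (h : β i = 0) :
    coeff β (X i * F) = 0 := by
  rw [MvPolynomial.coeff_X_mul', if_neg]
  rwa [Finsupp.notMem_support_iff]

theorem coeff_pow_two : coeff (mono 0 0 3) ((X 2 : S k) ^ 3) = 1 := by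
  have h := monomial_mono (A := R k) 0 0 3
  rw [pow_zero, pow_zero, one_mul, one_mul] at h
  rw [← h, MvPolynomial.coeff_monomial, if_pos rfl]

theorem L_G1 : L1 (G1 k) = 1 ∧ L2 (G1 k) = 0 := by
  have e : coeff (mono 0 0 3) (G1 k) = X 0 ^ 2 := by
    unfold G1
    rw [MvPolynomial.coeff_add, MvPolynomial.coeff_C_mul, coeff_pow_two, mul_one,
      coeff_X_left 1 _ _ (mono_one _ _ _), add_zero]
  have e2 : (X 0 ^ 2 : R k) = monomial (mono 2 0 0) 1 := by
    rw [monomial_mono, pow_zero, pow_zero, mul_one, mul_one]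
  unfold L1 L2
  rw [e, e2, MvPolynomial.coeff_monomial, MvPolynomial.coeff_monomial, if_pos rfl, if_neg]
  · exact ⟨rfl, rfl⟩
  · intro h
    have h1 := DFunLike.congr_fun h 0
    rw [mono_zero, mono_zero] at h1
    omega

theorem L_G2 : L1 (G2 k) = 0 ∧ L2 (G2 k) = 1 := by
  have e : coeff (mono 0 0 3) (G2 k) = X 0 * X 1 := by
    have e0 : G2 k = C (X 0 * X 1) * X 2 ^ 3 + X 0 * (C (X 2 ^ 2) * X 2 ^ 2) +
        X 1 * (X 1 * C (X 1) * (C (X 1) * X 0 + C (X 0) * X 1)) := by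
      unfold G2
      ring
    rw [e0, MvPolynomial.coeff_add, MvPolynomial.coeff_add, MvPolynomial.coeff_C_mul,
      coeff_pow_two, mul_one, coeff_X_left 0 _ _ (mono_zero _ _ _),
      coeff_X_left 1 _ _ (mono_one _ _ _), add_zero, add_zero]
  have e2 : (X 0 * X 1 : R k) = monomial (mono 1 1 0) 1 := by
    rw [monomial_mono, pow_zero, pow_one, pow_one, mul_one]
  unfold L1 L2
  rw [e, e2, MvPolynomial.coeff_monomial, MvPolynomial.coeff_monomial, if_pos rfl, if_neg]
  · exact ⟨rfl, rfl⟩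
  · intro h
    have h1 := DFunLike.congr_fun h 0
    rw [mono_zero, mono_zero] at h1
    omega

theorem independent (c₁ c₂ : k)
    (h : C (C c₁) * G1 k + C (C c₂) * G2 k ∈ irrelevant k * reesIdeal (phi k)) :
    c₁ = 0 ∧ c₂ = 0 := by
  have h1 := kill h
  rw [L1_add, L2_add, L1_C, L1_C, L2_C, L2_C, L_G1.1, L_G1.2, L_G2.1, L_G2.2] at h1
  simpa using h1

theorem mono_degree (a b c : ℕ) : (mono a b c).degree = a + b + c := by
  rw [Finsupp.degree_eq_sum, Fin.sum_univ_three, mono_zero, mono_one, mono_two]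

/-- the functionals vanish on bihomogeneous elements of other bidegrees -/
theorem L_of_bihom {m : S k} {i j : ℕ} (h : IsBihom m i j) (hne : ¬ IsBihom m 2 3) :
    L1 m = 0 ∧ L2 m = 0 := by
  by_contra hcon
  apply hne
  have key : ∀ α : Fin 3 →₀ ℕ, α.degree = 2 → coeff α (m.coeff (mono 0 0 3)) ≠ 0 →
      IsBihom m 2 3 := by
    intro α hα h0
    have h1 : m.coeff (mono 0 0 3) ≠ 0 := fun h2 => h0 (by rw [h2, MvPolynomial.coeff_zero])
    have h2 : (mono 0 0 3).degree = j := by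
      by_contra hd
      exact h1 (MvPolynomial.IsHomogeneous.coeff_eq_zero h.1 hd)
    have h3 : α.degree = i := by
      by_contra hd
      exact h0 (MvPolynomial.IsHomogeneous.coeff_eq_zero (h.2 (mono 0 0 3)) hd)
    rw [mono_degree] at h2
    rw [hα] at h3
    have h4 : j = 3 := by omega
    rw [h4, ← h3] at h
    exact h
  by_cases h1 : L1 m = 0
  · have h2 : L2 m ≠ 0 := fun h2 => hcon ⟨h1, h2⟩
    exact key _ (mono_degree _ _ _) h2
  · exact key _ (mono_degree _ _ _) h1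

theorem generators (M : Set (S k)) (hM : ∀ m ∈ M, ∃ i j, IsBihom m i j)
    (hspan : Ideal.span M = reesIdeal (phi k)) :
    ∃ m₁ ∈ M, ∃ m₂ ∈ M, m₁ ≠ m₂ ∧ m₁ ≠ 0 ∧ m₂ ≠ 0 ∧ IsBihom m₁ 2 3 ∧ IsBihom m₂ 2 3 := by
  by_contra hcon
  push Not at hcon
  have hMI : ∀ m ∈ M, psi k m = 0 := by
    intro m hm
    rw [← mem_rees, ← hspan]
    exact Ideal.subset_span hm
  -- the values of the functionals on `𝓘` are multiples of one vector
  have key : ∃ a b : k, ∀ F ∈ reesIdeal (phi k), ∃ c : k, L1 F = c * a ∧ L2 F = c * b := by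
    have red : ∀ a b : k, (∀ m ∈ M, ∃ c : k, L1 m = c * a ∧ L2 m = c * b) →
        ∀ F ∈ reesIdeal (phi k), ∃ c : k, L1 F = c * a ∧ L2 F = c * b := by
      intro a b h F hF
      rw [← hspan] at hF
      have h2 : psi k F = 0 ∧ ∃ c : k, L1 F = c * a ∧ L2 F = c * b := by
        induction hF using Submodule.span_induction with
        | mem m hm => exact ⟨hMI m hm, h m hm⟩
        | zero => exact ⟨map_zero _, 0, by rw [L_zero.1, zero_mul], by rw [L_zero.2, zero_mul]⟩
        | add x y _ _ hx hy =>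
          obtain ⟨hx0, c, hc1, hc2⟩ := hx
          obtain ⟨hy0, c', hc1', hc2'⟩ := hy
          refine ⟨by rw [map_add, hx0, hy0, add_zero], c + c', ?_, ?_⟩
          · rw [L1_add, hc1, hc1', add_mul]
          · rw [L2_add, hc2, hc2', add_mul]
        | smul s x _ hx =>
          obtain ⟨hx0, c, hc1, hc2⟩ := hx
          refine ⟨by rw [smul_eq_mul, map_mul, hx0, mul_zero],
            constantCoeff (constantCoeff s) * c, ?_, ?_⟩
          · rw [smul_eq_mul, (L_mul s x hx0).1, hc1, mul_assoc]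
          · rw [smul_eq_mul, (L_mul s x hx0).2, hc2, mul_assoc]
      exact h2.2
    by_cases hex : ∃ m₀ ∈ M, m₀ ≠ 0 ∧ IsBihom m₀ 2 3
    · obtain ⟨m₀, hm₀, h0, h0'⟩ := hex
      refine ⟨L1 m₀, L2 m₀, red _ _ fun m hm => ?_⟩
      by_cases hb : IsBihom m 2 3
      · by_cases hz : m = 0
        · rw [hz]
          exact ⟨0, by rw [L_zero.1, zero_mul], by rw [L_zero.2, zero_mul]⟩
        · have hmm : m = m₀ := by
            by_contra hne
            exact hcon m hm m₀ hm₀ hne hz h0 hb h0'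
          rw [hmm]
          exact ⟨1, by rw [one_mul], by rw [one_mul]⟩
      · obtain ⟨i, j, hij⟩ := hM m hm
        have h1 := L_of_bihom hij hb
        exact ⟨0, by rw [h1.1, zero_mul], by rw [h1.2, zero_mul]⟩
    · refine ⟨0, 0, red _ _ fun m hm => ?_⟩
      obtain ⟨i, j, hij⟩ := hM m hm
      by_cases hz : m = 0
      · rw [hz]
        exact ⟨0, by rw [L_zero.1, zero_mul], by rw [L_zero.2, zero_mul]⟩
      · have h1 := L_of_bihom hij fun hb => hex ⟨m, hm, hz, hb⟩
        exact ⟨0, by rw [h1.1, zero_mul], by rw [h1.2, zero_mul]⟩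
  obtain ⟨a, b, hab⟩ := key
  obtain ⟨c, hc1, hc2⟩ := hab _ mem_1
  obtain ⟨c', hc1', hc2'⟩ := hab _ mem_2
  rw [L_G1.1] at hc1
  rw [L_G1.2] at hc2
  rw [L_G2.1] at hc1'
  rw [L_G2.2] at hc2'
  have hc : c ≠ 0 := by
    rintro rfl
    rw [zero_mul] at hc1
    exact one_ne_zero hc1
  have hb : b = 0 := (mul_eq_zero.1 hc2.symm).resolve_left hc
  rw [hb, mul_zero] at hc2'
  exact one_ne_zero hc2'

end proofs

/-- **The answer to Q2 is negative.**  Over every field `k` the matrix `φ` of monomials (and a zero)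
with column degrees `3` and `4` satisfies the hypotheses, with codimension-two part `(y², z²)` of
`I₁(φ)`; `h` is a Sylvester form of `{f, g}`, and `G₁`, `G₂` are Sylvester forms of `{f, h}`.  They
have the same bidegree `(2, 3)`, lie in `𝓘` and are linearly independent modulo `𝔐 𝓘`; every set of
bihomogeneous generators of `𝓘` contains at least two nonzero elements of bidegree `(2, 3)`. -/
theorem result (k : Type*) [Field k] :
    (∀ i j, phi k i j = 0 ∨ ∃ m, phi k i j = monomial m 1) ∧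
    Admissible (phi k) 3 4 ∧
    (∀ r : R k, r ∈ codimTwoPart (entryIdeal (phi k)) ↔
      r ∈ Ideal.span {(X 1 : R k) ^ 2, X 2 ^ 2}) ∧
    IsSylvester ![formF (phi k), formG (phi k)] ![X 1 ^ 2, X 2 ^ 2] (formH k) ∧
    IsSylvester ![formF (phi k), formH k] ![X 1 ^ 2, X 2 ^ 2] (G1 k) ∧
    IsSylvester ![formF (phi k), formH k] ![X 1, X 0 * X 2 ^ 2] (G2 k) ∧
    IsIterated (phi k) (G1 k) ∧ IsIterated (phi k) (G2 k) ∧
    IsBihom (G1 k) 2 3 ∧ IsBihom (G2 k) 2 3 ∧
    G1 k ∈ reesIdeal (phi k) ∧ G2 k ∈ reesIdeal (phi k) ∧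
    (∀ c₁ c₂ : k, C (C c₁) * G1 k + C (C c₂) * G2 k ∈ irrelevant k * reesIdeal (phi k) →
      c₁ = 0 ∧ c₂ = 0) ∧
    ∀ M : Set (S k), (∀ m ∈ M, ∃ i j, IsBihom m i j) → Ideal.span M = reesIdeal (phi k) →
      ∃ m₁ ∈ M, ∃ m₂ ∈ M, m₁ ≠ m₂ ∧ m₁ ≠ 0 ∧ m₂ ≠ 0 ∧ IsBihom m₁ 2 3 ∧ IsBihom m₂ 2 3 := by
  refine ⟨fun i j => ?_, admissible, codimTwoPart_eq, syl_h, syl_1, syl_2, iter_1, iter_2, bG1,
    bG2, mem_1, mem_2, independent, generators⟩
  have h1 : ∀ a b c : ℕ, ∃ m, (X 0 ^ a * X 1 ^ b * X 2 ^ c : R k) = monomial m 1 :=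
    fun a b c => ⟨_, (Pool.Agent.V7H49.SYL.monomial_mono a b c).symm⟩
  fin_cases i <;> fin_cases j
  · have h := h1 0 1 2
    rw [pow_zero, one_mul, pow_one] at h
    exact Or.inr h
  · exact Or.inl rfl
  · have h := h1 1 0 2
    rw [pow_zero, mul_one, pow_one] at h
    exact Or.inr h
  · have h := h1 0 4 0
    rw [pow_zero, pow_zero, mul_one, one_mul] at h
    exact Or.inr h
  · have h := h1 1 2 0
    rw [pow_zero, mul_one, pow_one] at h
    exact Or.inr h
  · have h := h1 0 0 4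
    rw [pow_zero, pow_zero, one_mul, one_mul] at h
    exact Or.inr h

end Pool.Agent.Results.MP_2a35bd_al.SharedBidegreeH49
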